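import Pool.Agent.Helper95.AF.Defs
import Pool.Agent.Helper23.AF.EigOm
import Pool.Agent.Helper23.AF.SExpo
import Pool.Agent.Helper23.AF.Num

/-! Project AF (MP_9ee088_an): the definitions of `Helper95/AF/Defs.lean` (a constant, `b` varies) are those of the component
part (`Helper23/AF`, pairs) for `f θ = (a, b θ)`; the component part on the whole space. -/

set_option autoImplicit false
open MeasureTheory Real Set Filter Topology
open scoped ENNReal

namespace Pool.Agent.Helper85.AF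

open Pool.Agent.Helper18.UC (nn LL rep toT)
open Pool.Agent.Helper46.QP (TT Td)
open Pool.Agent.Helper82.AN (sq)
open Pool.Agent.Helper95.AF (st po mt pM tst Fa gA Lv)

variable {d : ℕ}

/-- the pair -/
def pr (a : ℝ) (b : Td d → ℝ) (θ : Td d) : ℝ × ℝ := (a, b θ)

theorem st_eq (a β : ℝ) (q : ℝ × ℝ) : st a β q = Pool.Agent.Helper23.AF.Fp (a, β) q := rfl

theorem mt_eq (a : ℝ) (q : ℝ × ℝ) : mt a q.1 = Pool.Agent.Helper18.UC.A a q := rfl

theorem po_eq (a : ℝ) (b : ℕ → ℝ) (n : ℕ) (q : ℝ × ℝ) : po a b n q = Pool.Agent.Helper23.AF.po (fun j => (a, b j)) n q := by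
  induction n with
  | zero => rw [po, Pool.Agent.Helper23.AF.po]
  | succ n ih => rw [po, Pool.Agent.Helper23.AF.po, ih, st_eq]

theorem pM_eq (a : ℝ) (b : ℕ → ℝ) (n : ℕ) (q : ℝ × ℝ) : pM a b n q = Pool.Agent.Helper23.AF.pM (fun j => (a, b j)) n q := by
  induction n with
  | zero => rw [pM, Pool.Agent.Helper23.AF.pM]
  | succ n ih => rw [pM, Pool.Agent.Helper23.AF.pM, ih, ← po_eq, mt_eq]

theorem tst_eq (a β : ℝ) (z : TT) : tst a β z = Pool.Agent.Helper23.AF.stp (a, β) z := by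
  unfold tst Pool.Agent.Helper23.AF.stp Pool.Agent.Helper46.QP.stp Pool.Agent.Helper46.QP.ee
  refine Prod.ext ?_ rfl
  show z.1 + z.1 - z.2 + ((a * (fourier 1 z.1 : ℂ).im + β : ℝ) : UnitAddCircle) =
    z.1 + z.1 - z.2 + (((((a : ℝ) : ℂ) * (fourier 1 z.1 : ℂ)).im : ℝ) : UnitAddCircle) + ((β : ℝ) : UnitAddCircle)
  rw [Complex.im_ofReal_mul, AddCircle.coe_add, add_assoc]

theorem Fa_eq (α : Td d) (a : ℝ) (b : Td d → ℝ) : Fa α a b = Pool.Agent.Helper23.AF.Fs α (pr a b) := by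
  funext p
  unfold Fa Pool.Agent.Helper23.AF.Fs pr
  rw [tst_eq]

theorem gA_eq (α : Td d) (a : ℝ) (b : Td d → ℝ) (n : ℕ) (p : Td d × TT) :
    gA α a b n p = Pool.Agent.Helper23.AF.gN α (pr a b) n p := by
  unfold gA Pool.Agent.Helper23.AF.gN
  rw [pM_eq, Pool.Agent.Helper23.AF.Mx_rep]
  rfl

/-- **The component part on the whole space.** `hx`: the exponents are large almost everywhere (`fin_exp`). -/
theorem whole : ∃ A : ℝ, ∀ (d : ℕ) (α : Td d) (_ : ∀ k : Fin d → ℤ, k ≠ 0 → ∑ m, k m • α m ≠ 0) (a : ℝ) (_ : A ≤ |a|)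
    (b : Td d → ℝ) (_ : Measurable b)
    (_ : ∀ lam : Td d × TT → ℝ, Measurable lam → (∀ᵐ p, lam (Fa α a b p) = lam p) →
      (∀ᵐ p, Tendsto (fun n : ℕ => Real.log (gA α a b n p) / n) atTop (𝓝 (lam p))) → ∀ᵐ p, 15 / 16 * Real.log |a| ≤ lam p),
    (∀ (ξ : ℂ) (h : Td d × TT → ℂ), Measurable h → (∀ᵐ p, h (Fa α a b p) = ξ * h p) →
      (∀ᵐ p, h p = 0) ∨ ∃ k : Fin d → ℤ, ∃ c : ℂ, fourier 1 (∑ m, k m • α m) = ξ ∧
        ∀ᵐ p : Td d × TT, h p = c * fourier 1 (∑ m, k m • p.1 m)) ∧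
    ∃ Λ : ℝ, 15 / 16 * Real.log |a| ≤ Λ ∧ ∀ᵐ p, Tendsto (fun n : ℕ => Real.log (gA α a b n p) / n) atTop (𝓝 Λ) := by
  obtain ⟨A₁, hA₁⟩ := Pool.Agent.Helper23.AF.num_LL
  refine ⟨max A₁ 2, fun d α hind a ha b hb hx => ?_⟩
  have hN := hA₁ a ((le_max_left _ _).trans ha)
  have ha2 : 2 ≤ |a| := (le_max_right _ _).trans ha
  have hla : 0 < Real.log |a| := Real.log_pos (by linarith)
  have hfm : Measurable (pr (d := d) a b) := measurable_const.prodMk hb
  have hA : ∀ θ : Td d, LL (pr a b θ).1 ≤ LL a := fun θ => le_rfl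
  obtain ⟨lam, hm, -, hinv, hl, hom⟩ := Pool.Agent.Helper23.AF.ex_lam (α := α) hfm hA
  have hbig := hx lam hm (by rw [Fa_eq]; exact hinv) (by simp only [gA_eq]; exact hl)
  have hall : ∀ᵐ p, p ∈ Pool.Agent.Helper23.AF.om α (pr a b) (7 / 8 * Real.log |a|) := by
    filter_upwards [hbig, hom (7 / 8 * Real.log |a|)] with p h1 h2
    rw [h2]
    linarith
  refine ⟨fun ξ h hh hF => ?_, ?_⟩
  · rw [Fa_eq] at hF
    rcases Pool.Agent.Helper23.AF.eig_om hind hfm hA hN ξ hh (hF.mono fun p hp _ => hp) with h0 | ⟨k, c, h1, h2⟩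
    · left
      filter_upwards [h0, hall] with p h3 h4
      exact h3 h4
    · right
      refine ⟨k, c, h1, ?_⟩
      filter_upwards [h2, hall] with p h3 h4
      exact h3 h4
  · obtain ⟨Λ, hΛ⟩ := Pool.Agent.Helper23.AF.lam_const hind hfm hA hN hm hinv
    have h1 : ∀ᵐ p, lam p = Λ := by
      filter_upwards [hΛ, hall] with p h3 h4
      exact h3 h4
    refine ⟨Λ, ?_, ?_⟩
    · obtain ⟨p, hp1, hp2⟩ := (hbig.and h1).exists
      rwa [hp2] at hp1
    · filter_upwards [hl, h1] with p h3 h4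
      simp only [gA_eq]
      rwa [h4] at h3

end Pool.Agent.Helper85.AF
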