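import Pool.Agent.Helper85.AF.LimFd
import Pool.Agent.Helper63.AF.FinExp

/-! Project AF (MP_9ee088_an): assembly. `AllPar` is the statement of `all_par` (growth part). -/

set_option autoImplicit false
open MeasureTheory Real Set Filter Topology
open scoped ENNReal

namespace Pool.Agent.Helper85.AF

open Pool.Agent.Helper46.QP (TT Td)
open Pool.Agent.Helper82.AN (sq Ow lawL eta)
open Pool.Agent.Helper95.AF (st po tst Fa gA Lv frc DC Ho)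

/-- the statement of `all_par` -/
def AllPar : Prop := ∀ (d : ℕ) (γ τ : ℝ), 0 < d → 0 < γ → 1 / (d : ℝ) ≤ τ → τ * γ < 1 → ∀ (k : ℕ) (e : Fin k → Td d → ℝ),
  (∀ i, Ho (e i)) → ∀ᵐ w ∂lawL d, ∀ D : ℝ, 0 < D → ∃ A : ℝ, 1 ≤ A ∧ ∀ (α : Td d) (a : ℝ) (U : Fin (k + 1) → ℝ),
    DC D τ α → A ≤ |a| → |a| ^ (-(1 / 4000 : ℝ)) ≤ |U 0| → (∀ i, |U i| ≤ |a|) → Lv α a (frc γ e U w)

/-- ergodicity in the strong form and a large exponent on the whole space -/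
def Gd {d : ℕ} (α : Td d) (a : ℝ) (b : Td d → ℝ) : Prop :=
  (∀ (ξ : ℂ) (h : Td d × TT → ℂ), Measurable h → (∀ᵐ p, h (Fa α a b p) = ξ * h p) →
    (∀ᵐ p, h p = 0) ∨ ∃ k : Fin d → ℤ, ∃ c : ℂ, fourier 1 (∑ m, k m • α m) = ξ ∧
      ∀ᵐ p : Td d × TT, h p = c * fourier 1 (∑ m, k m • p.1 m)) ∧
  ∃ Λ : ℝ, 15 / 16 * Real.log |a| ≤ Λ ∧ ∀ᵐ θ : Td d, ∀ᵐ z : ℝ × ℝ,
    Tendsto (fun n : ℕ => Real.log ‖fderiv ℝ (po a (sq α b θ) n) z‖ / n) atTop (𝓝 Λ)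

theorem gd_of : ∃ A : ℝ, ∀ (d : ℕ) (α : Td d) (_ : ∀ k : Fin d → ℤ, k ≠ 0 → ∑ m, k m • α m ≠ 0) (a : ℝ) (_ : A ≤ |a|)
    (b : Td d → ℝ) (_ : Continuous b) (_ : Lv α a b), Gd α a b := by
  obtain ⟨A, hA⟩ := whole
  refine ⟨max A 10, fun d α hind a ha b hb hL => ?_⟩
  obtain ⟨h1, Λ, h2, h3⟩ := hA d α hind a ((le_max_left _ _).trans ha) b hb.measurable
    (fun lam hm hinv hl => Pool.Agent.Helper63.AF.fin_exp hind ((le_max_right _ _).trans ha) hb hL hm hinv hl)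
  exact ⟨h1, Λ, h2, lim_fd h3⟩

end Pool.Agent.Helper85.AF
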