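import Pool.Agent.Helper85.AF.Bridge
import Pool.Agent.Helper46.QP.Link

/-! Project AF (MP_9ee088_an): the exponent as the growth of the derivative of the plane maps `po a (sq α b θ) n`. -/

set_option autoImplicit false
open MeasureTheory Real Set Filter Topology

namespace Pool.Agent.Helper85.AF

open Pool.Agent.Helper18.UC (nn LL rep toT clm)
open Pool.Agent.Helper46.QP (TT Td)
open Pool.Agent.Helper82.AN (sq)
open Pool.Agent.Helper95.AF (st po mt pM tst Fa gA Lv)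

variable {d : ℕ}

theorem hasFDerivAt_po (a : ℝ) (b : ℕ → ℝ) (n : ℕ) (q : ℝ × ℝ) : HasFDerivAt (po a b n) (clm (pM a b n q)) q := by
  have h := Pool.Agent.Helper23.AF.hasFDerivAt_po (fun j => (a, b j)) n q
  have e : Pool.Agent.Helper23.AF.po (fun j => (a, b j)) n = po a b n := by
    funext x
    rw [po_eq]
  rw [e, ← pM_eq] at h
  exact h

theorem gA_toT (α : Td d) (a : ℝ) (b : Td d → ℝ) (n : ℕ) (θ : Td d) (z : ℝ × ℝ) :
    gA α a b n (θ, toT z) = nn (pM a (sq α b θ) n z) := by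
  unfold gA
  obtain ⟨u, w, h⟩ := Pool.Agent.Helper18.UC.rep_toT z
  show nn (pM a (sq α b θ) n (rep (toT z))) = _
  rw [h, pM_eq, Pool.Agent.Helper23.AF.pM_sh, ← pM_eq]

theorem lim_fd {α : Td d} {a : ℝ} {b : Td d → ℝ} {Λ : ℝ}
    (h : ∀ᵐ p : Td d × TT, Tendsto (fun n : ℕ => Real.log (gA α a b n p) / n) atTop (𝓝 Λ)) :
    ∀ᵐ θ : Td d, ∀ᵐ z : ℝ × ℝ,
      Tendsto (fun n : ℕ => Real.log ‖fderiv ℝ (po a (sq α b θ) n) z‖ / n) atTop (𝓝 Λ) := by
  have h2 := Measure.ae_ae_of_ae_prod h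
  filter_upwards [h2] with θ hθ
  filter_upwards [Pool.Agent.Helper46.QP.ae_tor hθ] with z hz
  have h1 : Tendsto (fun n : ℕ => Real.log (nn (pM a (sq α b θ) n z)) / n) atTop (𝓝 Λ) := by
    refine hz.congr fun n => ?_
    have := gA_toT α a b n θ z
    rw [← this]
    rfl
  have h3 : Tendsto (fun n : ℕ => Real.log (nn (pM a (sq α b θ) n z)) / n - Real.log 4 / n) atTop (𝓝 (Λ - 0)) :=
    h1.sub (tendsto_const_div_atTop_nhds_zero_nat _)
  rw [sub_zero] at h3
  have hpos : ∀ n, 0 < nn (pM a (sq α b θ) n z) := fun n => by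
    have := Pool.Agent.Helper23.AF.two_le_pnn (fun j => (a, sq α b θ j)) n z
    rw [← pM_eq] at this
    linarith
  have key : ∀ n, nn (pM a (sq α b θ) n z) / 4 ≤ ‖fderiv ℝ (po a (sq α b θ) n) z‖ ∧
      ‖fderiv ℝ (po a (sq α b θ) n) z‖ ≤ nn (pM a (sq α b θ) n z) := by
    intro n
    rw [(hasFDerivAt_po a (sq α b θ) n z).fderiv]
    have g1 := Pool.Agent.Helper18.UC.nn_le_clm (pM a (sq α b θ) n z)
    have g2 := Pool.Agent.Helper18.UC.norm_clm_le (pM a (sq α b θ) n z)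
    have g3 := norm_nonneg (clm (pM a (sq α b θ) n z))
    exact ⟨by linarith, g2⟩
  refine tendsto_of_tendsto_of_tendsto_of_le_of_le h3 h1 (fun n => ?_) (fun n => ?_)
  · change Real.log (nn (pM a (sq α b θ) n z)) / n - Real.log 4 / n ≤ Real.log ‖fderiv ℝ (po a (sq α b θ) n) z‖ / n
    rw [← sub_div]
    refine div_le_div_of_nonneg_right ?_ (Nat.cast_nonneg n)
    rw [← Real.log_div (hpos n).ne' (by norm_num)]
    exact Real.log_le_log (div_pos (hpos n) (by norm_num)) (key n).1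
  · change Real.log ‖fderiv ℝ (po a (sq α b θ) n) z‖ / n ≤ Real.log (nn (pM a (sq α b θ) n z)) / n
    refine div_le_div_of_nonneg_right ?_ (Nat.cast_nonneg n)
    exact Real.log_le_log (lt_of_lt_of_le (div_pos (hpos n) (by norm_num)) (key n).1) (key n).2

end Pool.Agent.Helper85.AF
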